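import Pool.Agent.H536R3.Flux

/-!
The density of a Sturmian pattern is invariant under bijective quasi-isometries of the integers.
-/

set_option autoImplicit false

namespace Pool.Agent.Y141.CT

open Pool.Agent.H536R3

theorem sum_tel (f : ℤ → ℝ) (F : ℤ → ℝ) (h : ∀ n, f n = F (n + 1) - F n) (a : ℤ) (k : ℕ) :
    ∑ n ∈ Finset.Ico a (a + k), f n = F (a + k) - F a := by
  induction k with
  | zero => simp
  | succ k ih =>
    have e : Finset.Ico a (a + (k + 1 : ℕ)) = insert (a + k) (Finset.Ico a (a + k)) := by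
      ext x
      simp only [Finset.mem_Ico, Finset.mem_insert]
      push_cast
      omega
    rw [e, Finset.sum_insert (by simp), ih, h]
    have e2 : a + ((k + 1 : ℕ) : ℤ) = a + k + 1 := by push_cast; ring
    rw [e2]
    ring

theorem sum_st (s : ℤ → ℕ) (α : ℝ)
    (hs : ∀ n : ℤ, (s n : ℝ) = ⌊((n + 1 : ℤ) : ℝ) * α⌋ - ⌊(n : ℝ) * α⌋) (a b : ℤ) (hab : a ≤ b) :
    |∑ n ∈ Finset.Ico a b, (s n : ℝ) - ((b : ℝ) - a) * α| ≤ 3 := by
  obtain ⟨k, rfl⟩ := Int.le.dest hab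
  rw [sum_tel (fun n => (s n : ℝ)) (fun n => ((⌊(n : ℝ) * α⌋ : ℤ) : ℝ)) hs]
  have h1 := Int.floor_le (((a + k : ℤ) : ℝ) * α)
  have h2 := Int.lt_floor_add_one (((a + k : ℤ) : ℝ) * α)
  have h3 := Int.floor_le ((a : ℝ) * α)
  have h4 := Int.lt_floor_add_one ((a : ℝ) * α)
  rw [abs_le]
  constructor <;> nlinarith

/-- the case of an increasing quasi-isometry -/
theorem count_up (s t : ℤ → ℕ) (α β : ℝ)
    (hs : ∀ a b : ℤ, a ≤ b → |∑ n ∈ Finset.Ico a b, (s n : ℝ) - ((b : ℝ) - a) * α| ≤ 3)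
    (ht : ∀ a b : ℤ, a ≤ b → |∑ n ∈ Finset.Ico a b, (t n : ℝ) - ((b : ℝ) - a) * β| ≤ 3)
    (σ : Equiv.Perm ℤ) (L : ℤ) (hL : 0 ≤ L) (h : QI1 L σ) (ho : OPT σ)
    (hst : ∀ n, t (σ n) = s n) : α = β := by
  have hD := DL_nonneg hL
  set D := DL L with hDdef
  have hmon : ∀ n m : ℤ, n ≤ m → σ n ≤ σ m + D := fun n m hnm => ho.mon hL h hnm
  have key : ∀ N : ℕ, 4 * D + 2 ≤ N → |(N : ℝ) * (α - β)| ≤ 2 * ((2 * D + 1) * |β|) + 6 := by
    intro N hN
    let E : Finset ℤ := Finset.Ico (σ 0 - D) (σ N + D + 1)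
    let F : Finset ℤ := Finset.Ico (σ 0 + D + 1) (σ N - D)
    let A : Finset ℤ := Finset.Ico 0 (N : ℤ)
    have hAE : A.map σ.toEmbedding ⊆ E := by
      intro y hy
      obtain ⟨n, hn, rfl⟩ := Finset.mem_map.1 hy
      rw [Finset.mem_Ico] at hn
      have h1 := hmon 0 n hn.1
      have h2 := hmon n N hn.2.le
      change σ n ∈ E
      rw [Finset.mem_Ico]
      constructor <;> linarith
    have hFA : F ⊆ A.map σ.toEmbedding := by
      intro y hy
      rw [Finset.mem_Ico] at hy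
      rw [Finset.mem_map]
      refine ⟨σ.symm y, ?_, σ.apply_symm_apply y⟩
      rw [Finset.mem_Ico]
      constructor
      · by_contra hc
        push Not at hc
        have h1 := hmon (σ.symm y) 0 hc.le
        rw [σ.apply_symm_apply] at h1
        linarith
      · by_contra hc
        push Not at hc
        have h1 := hmon N (σ.symm y) hc
        rw [σ.apply_symm_apply] at h1
        linarith
    have hcA : (A.map σ.toEmbedding).card = N := by
      rw [Finset.card_map, Int.card_Ico]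
      simp
    have hc1 := Finset.card_le_card hAE
    have hc2 := Finset.card_le_card hFA
    rw [hcA, Int.card_Ico] at hc1 hc2
    have hb1 : (N : ℤ) ≤ σ N - σ 0 + 2 * D + 1 := by omega
    have hb2 : σ N - σ 0 - 2 * D - 1 ≤ (N : ℤ) := by omega
    have hsum : ∑ y ∈ A.map σ.toEmbedding, (t y : ℝ) = ∑ n ∈ A, (s n : ℝ) := by
      rw [Finset.sum_map]
      refine Finset.sum_congr rfl fun n _ => ?_
      rw [← hst n]
      rfl
    have hu : ∑ y ∈ A.map σ.toEmbedding, (t y : ℝ) ≤ ∑ y ∈ E, (t y : ℝ) :=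
      Finset.sum_le_sum_of_subset_of_nonneg hAE fun _ _ _ => Nat.cast_nonneg _
    have hl : ∑ y ∈ F, (t y : ℝ) ≤ ∑ y ∈ A.map σ.toEmbedding, (t y : ℝ) :=
      Finset.sum_le_sum_of_subset_of_nonneg hFA fun _ _ _ => Nat.cast_nonneg _
    rw [hsum] at hu hl
    have h1 := abs_le.1 (hs 0 N (Int.natCast_nonneg N))
    have h2 := abs_le.1 (ht (σ 0 - D) (σ N + D + 1) (by omega))
    have h3 := abs_le.1 (ht (σ 0 + D + 1) (σ N - D) (by omega))
    have hb1' : (N : ℝ) ≤ σ N - σ 0 + 2 * D + 1 := by exact_mod_cast hb1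
    have hb2' : (σ N : ℝ) - σ 0 - 2 * D - 1 ≤ (N : ℝ) := by exact_mod_cast hb2
    have hD' : (0 : ℝ) ≤ D := by exact_mod_cast hD
    push_cast at h1 h2 h3
    -- the difference of the lengths
    have h4 : |((σ N : ℝ) - σ 0 - N) * β| ≤ (2 * D + 1) * |β| := by
      rw [abs_mul]
      refine mul_le_mul_of_nonneg_right ?_ (abs_nonneg β)
      rw [abs_le]
      constructor <;> linarith
    have h5 : |(2 * (D : ℝ) + 1) * β| ≤ (2 * D + 1) * |β| := by
      rw [abs_mul, abs_of_nonneg (by linarith : (0 : ℝ) ≤ 2 * D + 1)]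
    rw [abs_le] at h4 h5
    change _ ≤ ∑ y ∈ E, (t y : ℝ) - _ ∧ ∑ y ∈ E, (t y : ℝ) - _ ≤ _ at h2
    change _ ≤ ∑ y ∈ F, (t y : ℝ) - _ ∧ ∑ y ∈ F, (t y : ℝ) - _ ≤ _ at h3
    change _ ≤ ∑ y ∈ A, (s y : ℝ) - _ ∧ ∑ y ∈ A, (s y : ℝ) - _ ≤ _ at h1
    rw [abs_le]
    constructor
    · linarith [h1.1, h1.2, h2.1, h2.2, h3.1, h3.2, h4.1, h4.2, h5.1, h5.2]
    · linarith [h1.1, h1.2, h2.1, h2.2, h3.1, h3.2, h4.1, h4.2, h5.1, h5.2]
  by_contra hne
  have hpos : 0 < |α - β| := abs_pos.2 (sub_ne_zero.2 hne)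
  obtain ⟨N1, hN1⟩ := exists_nat_gt ((2 * ((2 * D + 1) * |β|) + 6) / |α - β|)
  have h1 := key (max N1 (4 * D + 2).toNat) (by
    have := Int.self_le_toNat (4 * D + 2)
    push_cast
    exact this.trans (le_max_right _ _))
  rw [abs_mul, Nat.abs_cast] at h1
  have h2 : (N1 : ℝ) ≤ (max N1 (4 * D + 2).toNat : ℕ) := by exact_mod_cast le_max_left _ _
  rw [div_lt_iff₀ hpos] at hN1
  have h3 := mul_le_mul_of_nonneg_right h2 hpos.le
  linarith

theorem count_main (s t : ℤ → ℕ) (α β : ℝ) (hs1 : ∀ n, s n ≤ 1) (ht1 : ∀ n, t n ≤ 1)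
    (hs : ∀ n : ℤ, (s n : ℝ) = ⌊((n + 1 : ℤ) : ℝ) * α⌋ - ⌊(n : ℝ) * α⌋)
    (ht : ∀ n : ℤ, (t n : ℝ) = ⌊((n + 1 : ℤ) : ℝ) * β⌋ - ⌊(n : ℝ) * β⌋)
    (σ : Equiv.Perm ℤ) (L : ℤ) (hL : 0 ≤ L) (h : QI1 L σ) (hst : ∀ n, t (σ n) = s n) :
    α = β := by
  rcases dich hL h with ho | ho
  · exact count_up s t α β (sum_st s α hs) (sum_st t β ht) σ L hL h ho hst
  · refine count_up s (fun y => t (-y)) α β (sum_st s α hs) ?_ (σ.trans (Equiv.neg ℤ)) L hL
      h.neg ho (fun n => ?_)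
    · intro a b hab
      have h1 := sum_st t β ht (1 - b) (1 - a) (by omega)
      have h2 : ∑ y ∈ Finset.Ico a b, (t (-y) : ℝ) = ∑ y ∈ Finset.Ico (1 - b) (1 - a), (t y : ℝ) := by
        refine Finset.sum_nbij' (fun y => -y) (fun y => -y) ?_ ?_ ?_ ?_ ?_
        · intro y hy
          rw [Finset.mem_Ico] at hy ⊢
          omega
        · intro y hy
          rw [Finset.mem_Ico] at hy ⊢
          omega
        · intro y _
          exact neg_neg y
        · intro y _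
          exact neg_neg y
        · intro y _
          rfl
      rw [h2]
      have h3 : (((1 - a : ℤ) : ℝ) - ((1 - b : ℤ) : ℝ)) * β = ((b : ℝ) - a) * β := by
        push_cast
        ring
      rw [h3] at h1
      exact h1
    · change t (-(-(σ n))) = s n
      rw [neg_neg, hst]

end Pool.Agent.Y141.CT
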